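import Mathlib

/-!
# The Kirillov-Melnikov identity `A_n(q) = B_n(q)`

`A_n(q)` counts strictly upper triangular `n x n` matrices over the field with `q` elements
with square zero, `B_n(q) = b_{n-1,0}(q)` comes from a `q`-analogue of the Euler-Bernoulli
triangle. We prove `A_n = B_n` for all `n ≥ 1` in the ring of Laurent polynomials.
-/

namespace Pool.Agent.Results.MP_1cd45c_al.QTriangle

open LaurentPolynomial Finset

/-- The polynomials `A_n^r` (number of strictly upper triangular `n x n` matrices of rank `r`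
with square zero): `A_0^0 = 1`, `A_0^r = 0` for `r > 0`, and
`A_{n+1}^{r+1} = q^{r+1} A_n^{r+1} + (q^{n-r} - q^r) A_n^r` for `r + 1 ≥ 0`
(with `A_n^{-1} = 0`, the case `r = -1` reads `A_{n+1}^0 = A_n^0`). Here `q = T 1`. -/
noncomputable def rankCount : ℕ → ℕ → ℤ[T;T⁻¹]
  | 0, 0 => 1
  | 0, _ + 1 => 0
  | n + 1, 0 => rankCount n 0
  | n + 1, r + 1 =>
      T ((r : ℤ) + 1) * rankCount n (r + 1) + (T ((n : ℤ) - (r : ℤ)) - T (r : ℤ)) * rankCount n r

/-- `A_n = ∑_r A_n^r`. -/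
noncomputable def A (n : ℕ) : ℤ[T;T⁻¹] := ∑ r ∈ range (n + 1), rankCount n r

/-- The `q`-analogue of the Euler-Bernoulli triangle: `b_{0,0} = 1`,
`b_{0,l} = q^l b_{l-1,0}` for `l ≥ 1` and
`b_{k,l} = q^{-1} b_{k-1,l+1} + (q^{l+1} - q^l) b_{l,k-1}` for `k ≥ 1`. -/
noncomputable def b : ℕ → ℕ → ℤ[T;T⁻¹]
  | 0, 0 => 1
  | 0, l + 1 => T ((l : ℤ) + 1) * b l 0
  | k + 1, l => T (-1) * b k (l + 1) + (T ((l : ℤ) + 1) - T (l : ℤ)) * b l k
termination_by k l => (k + l, k)
decreasing_by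
  all_goals
    simp only [Prod.lex_def]
    omega

/-- `B_n = b_{n-1,0}` for `n ≥ 1`. -/
noncomputable def B (n : ℕ) : ℤ[T;T⁻¹] := b (n - 1) 0

/-! ### Sanity checks: `A_2 = q`, `A_3 = 2 q^2 - q`, `B_2 = q`, `B_3 = 2 q^2 - q`. -/

lemma A_two : A 2 = T 1 := by
  simp [A, sum_range_succ, rankCount]

lemma A_three : A 3 = 2 * T 2 - T 1 := by
  simp only [A, sum_range_succ, sum_range_zero, rankCount]
  have e : (T 1 * T 1 : ℤ[T;T⁻¹]) = T 2 := by rw [← T_add]; norm_num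
  simp
  linear_combination e

lemma b_zero_zero : b 0 0 = 1 := by rw [b]

lemma b_zero_succ (l : ℕ) : b 0 (l + 1) = T ((l : ℤ) + 1) * b l 0 := by rw [b]

lemma b_succ (k l : ℕ) :
    b (k + 1) l = T (-1) * b k (l + 1) + (T ((l : ℤ) + 1) - T (l : ℤ)) * b l k := by rw [b]

lemma b_zero_one : b 0 1 = T 1 := by
  have h := b_zero_succ 0
  rw [b_zero_zero] at h
  simpa using h

lemma B_two : B 2 = T 1 := by
  have h := b_succ 0 0
  have e : (T (-1) * T 1 : ℤ[T;T⁻¹]) = 1 := by rw [← T_add]; simp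
  rw [zero_add, b_zero_zero, b_zero_one, e] at h
  simpa [B] using h

lemma B_three : B 3 = 2 * T 2 - T 1 := by
  have h1 := b_succ 1 0
  have h2 := b_succ 0 1
  have h3 := b_zero_succ 1
  have h4 : b 1 0 = T 1 := B_two
  have e1 : (T (-1) * T 1 : ℤ[T;T⁻¹]) = 1 := by rw [← T_add]; simp
  have e2 : (T 2 : ℤ[T;T⁻¹]) = T 1 * T 1 := by rw [← T_add]; norm_num
  simp only [zero_add, Nat.cast_one, Nat.cast_zero, one_add_one_eq_two, T_zero] at h1 h2 h3
  have h5 : B 3 = b 2 0 := rfl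
  rw [h5, h1, h2, h3, h4, b_zero_one, e2]
  linear_combination (T (-1) * T 1 * T 1 + T 1 * T 1) * e1

/-! ### Auxiliary objects for the proof -/

/-- Number of ways to extend a matrix of size `n` and rank `r` by `s` further columns. -/
noncomputable def ext : ℕ → ℕ → ℕ → ℤ[T;T⁻¹]
  | _, _, 0 => 1
  | n, r, s + 1 =>
      T (r : ℤ) * ext (n + 1) r s + (T ((n : ℤ) - (r : ℤ)) - T (r : ℤ)) * ext (n + 1) (r + 1) s

/-- Weighted sum over ranks. -/
noncomputable def S (n : ℕ) (φ : ℕ → ℤ[T;T⁻¹]) : ℤ[T;T⁻¹] :=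
  ∑ r ∈ range (n + 1), rankCount n r * φ r

lemma rankCount_eq_zero : ∀ (n r : ℕ), n < r → rankCount n r = 0
  | 0, 0, h => absurd h (lt_irrefl _)
  | 0, _ + 1, _ => by simp [rankCount]
  | n + 1, 0, h => absurd h (Nat.not_lt_zero _)
  | n + 1, r + 1, h => by
      have h1 : rankCount n (r + 1) = 0 := rankCount_eq_zero n (r + 1) (by omega)
      have h2 : rankCount n r = 0 := rankCount_eq_zero n r (by omega)
      simp [rankCount, h1, h2]

lemma S_congr (n : ℕ) (φ ψ : ℕ → ℤ[T;T⁻¹]) (h : ∀ r, φ r = ψ r) : S n φ = S n ψ := by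
  unfold S
  exact sum_congr rfl fun r _ => by rw [h r]

lemma S_succ (n : ℕ) (φ : ℕ → ℤ[T;T⁻¹]) :
    S (n + 1) φ
      = S n (fun r => T (r : ℤ) * φ r + (T ((n : ℤ) - (r : ℤ)) - T (r : ℤ)) * φ (r + 1)) := by
  unfold S
  rw [sum_range_succ']
  have h0 : rankCount (n + 1) 0 = rankCount n 0 := by rw [rankCount]
  have h1 : ∑ k ∈ range (n + 1), rankCount (n + 1) (k + 1) * φ (k + 1)
      = ∑ k ∈ range (n + 1), (T (((k + 1 : ℕ) : ℤ)) * rankCount n (k + 1) * φ (k + 1))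
        + ∑ k ∈ range (n + 1), (T ((n : ℤ) - (k : ℤ)) - T (k : ℤ)) * rankCount n k * φ (k + 1) := by
    rw [← sum_add_distrib]
    refine sum_congr rfl fun k _ => ?_
    rw [rankCount]
    push_cast
    ring
  have h2 : ∑ k ∈ range (n + 1), (T (((k + 1 : ℕ) : ℤ)) * rankCount n (k + 1) * φ (k + 1))
        + rankCount (n + 1) 0 * φ 0
      = ∑ k ∈ range (n + 1), T (k : ℤ) * rankCount n k * φ k := by
    have h3 : ∑ k ∈ range (n + 1 + 1), T (k : ℤ) * rankCount n k * φ k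
        = ∑ k ∈ range (n + 1), (T (((k + 1 : ℕ) : ℤ)) * rankCount n (k + 1) * φ (k + 1))
          + T ((0 : ℕ) : ℤ) * rankCount n 0 * φ 0 := by
      rw [sum_range_succ']
    have h4 : ∑ k ∈ range (n + 1 + 1), T (k : ℤ) * rankCount n k * φ k
        = ∑ k ∈ range (n + 1), T (k : ℤ) * rankCount n k * φ k := by
      rw [sum_range_succ, rankCount_eq_zero n (n + 1) (Nat.lt_succ_self n)]
      simp
    rw [← h4, h3, h0]
    simp
  rw [h1, add_right_comm, h2, ← sum_add_distrib]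
  refine sum_congr rfl fun k _ => ?_
  ring

lemma ext_shift : ∀ (s n r : ℕ), ext (n + 2) (r + 1) s = T (s : ℤ) * ext n r s
  | 0, n, r => by simp [ext]
  | s + 1, n, r => by
      rw [ext, ext, show n + 2 + 1 = (n + 1) + 2 by ring, ext_shift s (n + 1) r,
        ext_shift s (n + 1) (r + 1)]
      have e1 : T ((r + 1 : ℕ) : ℤ) = (T 1 * T (r : ℤ) : ℤ[T;T⁻¹]) := by
        rw [← T_add]; congr 1; push_cast; ring
      have e2 : T (((n + 2 : ℕ) : ℤ) - ((r + 1 : ℕ) : ℤ)) = (T 1 * T ((n : ℤ) - r) : ℤ[T;T⁻¹]) := by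
        rw [← T_add]; congr 1; push_cast; ring
      have e3 : T ((s + 1 : ℕ) : ℤ) = (T 1 * T (s : ℤ) : ℤ[T;T⁻¹]) := by
        rw [← T_add]; congr 1; push_cast; ring
      rw [e1, e2, e3]
      ring

/-- `F a b'`: matrices of size `a + b' + 1` whose column `a + 1` is zero. -/
noncomputable def F (a c : ℕ) : ℤ[T;T⁻¹] := S a (fun r => ext (a + 1) r c)

/-- `G a b'`: matrices of size `a + b' + 1` whose row `b' + 1` is zero. -/
noncomputable def G (a c : ℕ) : ℤ[T;T⁻¹] := S c (fun r => T ((c : ℤ) - (r : ℤ)) * ext c r a)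

lemma S_mul (n : ℕ) (x : ℤ[T;T⁻¹]) (φ : ℕ → ℤ[T;T⁻¹]) :
    S n (fun r => x * φ r) = x * S n φ := by
  unfold S
  rw [mul_sum]
  exact sum_congr rfl fun r _ => by ring

lemma S_add (n : ℕ) (φ ψ : ℕ → ℤ[T;T⁻¹]) :
    S n (fun r => φ r + ψ r) = S n φ + S n ψ := by
  unfold S
  rw [← sum_add_distrib]
  exact sum_congr rfl fun r _ => by ring

lemma G_rec (a c : ℕ) :
    G c (a + 1) = G (c + 1) a + (T ((a : ℤ) + 1) - T (a : ℤ)) * F a c := by
  unfold F G
  rw [S_succ, ← S_mul, ← S_add]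
  refine S_congr _ _ _ fun r => ?_
  rw [ext]
  have e1 : T (((a + 1 : ℕ) : ℤ) - (r : ℤ)) = (T 1 * T ((a : ℤ) - r) : ℤ[T;T⁻¹]) := by
    rw [← T_add]; congr 1; push_cast; ring
  have e2 : T (((a + 1 : ℕ) : ℤ) - ((r + 1 : ℕ) : ℤ)) = (T ((a : ℤ) - r) : ℤ[T;T⁻¹]) := by
    congr 1; push_cast; ring
  have e3 : T ((a : ℤ) + 1) = (T 1 * (T (r : ℤ) * T ((a : ℤ) - r)) : ℤ[T;T⁻¹]) := by
    rw [← T_add, ← T_add]; congr 1; ring
  have e4 : T (a : ℤ) = (T (r : ℤ) * T ((a : ℤ) - r) : ℤ[T;T⁻¹]) := by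
    rw [← T_add]; congr 1; ring
  rw [e1, e2, e3, e4]
  ring

lemma F_rec (a c : ℕ) :
    F c (a + 1) = F (c + 1) a + (T ((a : ℤ) + 1) - T (a : ℤ)) * G a c := by
  unfold F G
  rw [S_succ, ← S_mul, ← S_add]
  refine S_congr _ _ _ fun r => ?_
  rw [ext, show c + 1 + 1 = c + 2 by ring, ext_shift a c r]
  have e1 : T (((c + 1 : ℕ) : ℤ) - (r : ℤ)) = (T 1 * T ((c : ℤ) - r) : ℤ[T;T⁻¹]) := by
    rw [← T_add]; congr 1; push_cast; ring
  have e3 : T ((a : ℤ) + 1) = (T 1 * T (a : ℤ) : ℤ[T;T⁻¹]) := by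
    rw [← T_add]; congr 1; ring
  rw [e1, e3]
  ring

lemma S_one (n : ℕ) : S n (fun _ => 1) = A n := by
  unfold S A
  exact sum_congr rfl fun r _ => mul_one _

/-- Markov property: the total number of matrices of size `n + s`. -/
lemma S_ext : ∀ (s n : ℕ), S n (fun r => ext n r s) = A (n + s)
  | 0, n => by
      have : S n (fun r => ext n r 0) = S n (fun _ => 1) := S_congr _ _ _ fun r => by rw [ext]
      rw [this, S_one, add_zero]
  | s + 1, n => by
      have h1 : S n (fun r => ext n r (s + 1)) = S (n + 1) (fun r => ext (n + 1) r s) := by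
        rw [S_succ]
        refine S_congr _ _ _ fun r => ?_
        rw [ext]
      rw [h1, S_ext s (n + 1)]
      congr 1
      ring

lemma S_zero (φ : ℕ → ℤ[T;T⁻¹]) : S 0 φ = φ 0 := by
  unfold S
  simp [rankCount]

lemma F_zero (n : ℕ) : F 0 n = A (n + 1) := by
  have h : S 1 (fun r => ext 1 r n) = A (1 + n) := S_ext n 1
  rw [S_succ, S_zero] at h
  unfold F
  rw [S_zero, add_comm n 1, ← h]
  simp

lemma G_zero (n : ℕ) : G 0 n = A (n + 1) := by
  rw [← S_one, S_succ]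
  unfold G
  refine S_congr _ _ _ fun r => ?_
  rw [ext]
  ring

lemma G_right_zero (n : ℕ) : G n 0 = A n := by
  have h : S 0 (fun r => ext 0 r n) = A (0 + n) := S_ext n 0
  rw [S_zero] at h
  unfold G
  rw [S_zero, h]
  simp

lemma F_eq_G : ∀ (N a c : ℕ), a + c = N → F a c = G a c := by
  intro N
  induction N with
  | zero =>
      intro a c h
      obtain ⟨rfl, rfl⟩ : a = 0 ∧ c = 0 := by omega
      rw [F_zero, G_zero]
  | succ N ih =>
      intro a
      induction a with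
      | zero =>
          intro c _
          rw [F_zero, G_zero]
      | succ a iha =>
          intro c h
          have h1 : F a (c + 1) = G a (c + 1) := iha (c + 1) (by omega)
          have h2 : F c a = G c a := ih c a (by omega)
          have h3 : F a c = G a c := ih a c (by omega)
          have h4 := F_rec c a
          have h5 := G_rec c a
          rw [h1, h5, h2] at h4
          have h6 : G (a + 1) c = F (a + 1) c := by
            have := add_right_cancel h4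
            exact this
          exact h6.symm

lemma b_eq : ∀ (k l : ℕ), b k l = T (l : ℤ) * G l k
  | 0, 0 => by
      rw [b, G_zero]
      simp [A, rankCount, sum_range_succ]
  | 0, l + 1 => by
      rw [b, b_eq l 0, G_zero, G_right_zero]
      simp
  | k + 1, l => by
      rw [b, b_eq k (l + 1), b_eq l k, G_rec k l, F_eq_G (k + l) k l rfl]
      have e1 : T ((l + 1 : ℕ) : ℤ) = (T 1 * T (l : ℤ) : ℤ[T;T⁻¹]) := by
        rw [← T_add]; congr 1; push_cast; ring
      have e2 : T ((l : ℤ) + 1) = (T 1 * T (l : ℤ) : ℤ[T;T⁻¹]) := by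
        rw [← T_add]; congr 1; ring
      have e3 : T ((k : ℤ) + 1) = (T 1 * T (k : ℤ) : ℤ[T;T⁻¹]) := by
        rw [← T_add]; congr 1; ring
      have e4 : (T (-1) * T 1 : ℤ[T;T⁻¹]) = 1 := by
        rw [← T_add]; simp
      rw [e1, e2, e3]
      linear_combination (T (l : ℤ) * G (l + 1) k) * e4
termination_by k l => (k + l, k)
decreasing_by
  all_goals
    simp only [Prod.lex_def]
    omega

/-- The identity `A_n(q) = B_n(q)` for every `n ≥ 1`. -/
theorem result : ∀ n : ℕ, 1 ≤ n → A n = B n := by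
  intro n hn
  obtain ⟨m, rfl⟩ : ∃ m, n = m + 1 := ⟨n - 1, by omega⟩
  unfold B
  rw [Nat.add_sub_cancel, b_eq, G_zero]
  simp

end Pool.Agent.Results.MP_1cd45c_al.QTriangle
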